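import Pool.Agent.Helper36.CV.StmtsW

set_option autoImplicit false

namespace Pool.Agent.Helper36.CV

lemma d5_cos {x : ℝ} (hx : |x| ≤ 1) :
    |Real.cos x - (1 - x ^ 2 / 2 + x ^ 4 / 24 - x ^ 6 / 720)| ≤ x ^ 8 / 30000 := by
  have h1 : ‖((x : ℂ) * Complex.I)‖ ≤ 1 := by
    rw [norm_mul, Complex.norm_I, mul_one, Complex.norm_real]; exact hx
  have h2 := Complex.exp_bound h1 (n := 8) (by norm_num)
  have h3 : (Complex.exp ((x : ℂ) * Complex.I) -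
      ∑ m ∈ Finset.range 8, ((x : ℂ) * Complex.I) ^ m / m.factorial).re
      = Real.cos x - (1 - x ^ 2 / 2 + x ^ 4 / 24 - x ^ 6 / 720) := by
    rw [Complex.sub_re, Complex.exp_ofReal_mul_I_re]
    congr 1
    simp only [Finset.sum_range_succ, Finset.sum_range_zero]
    have e2 : Complex.I ^ 2 = -1 := Complex.I_sq
    have e3 : Complex.I ^ 3 = -Complex.I := Complex.I_pow_three
    have e4 : Complex.I ^ 4 = 1 := Complex.I_pow_four
    have e5 : Complex.I ^ 5 = Complex.I := by rw [pow_succ, e4, one_mul]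
    have e6 : Complex.I ^ 6 = -1 := by
      rw [show (6 : ℕ) = 4 + 2 from rfl, pow_add, e4, e2, one_mul]
    have e7 : Complex.I ^ 7 = -Complex.I := by
      rw [show (7 : ℕ) = 4 + 3 from rfl, pow_add, e4, e3, one_mul]
    rw [mul_pow, mul_pow, mul_pow, mul_pow, mul_pow, mul_pow, mul_pow, mul_pow, e2, e3, e4, e5,
      e6, e7]
    simp [Nat.factorial, ← Complex.ofReal_pow]
    ring
  have h4 := (Complex.abs_re_le_norm _).trans h2
  rw [h3] at h4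
  refine h4.trans ?_
  rw [norm_mul, Complex.norm_I, mul_one, Complex.norm_real, Real.norm_eq_abs]
  have h5 : |x| ^ 8 = x ^ 8 := by
    rw [← abs_pow, abs_of_nonneg (by positivity)]
  rw [h5]
  have h6 : 0 ≤ x ^ 8 := by positivity
  have h7 : ((Nat.succ 8 : ℕ) : ℝ) * (((Nat.factorial 8 : ℕ) : ℝ) * ((8 : ℕ) : ℝ))⁻¹
      ≤ 1 / 30000 := by
    norm_num [Nat.factorial]
  calc x ^ 8 * (((Nat.succ 8 : ℕ) : ℝ) * (((Nat.factorial 8 : ℕ) : ℝ) * ((8 : ℕ) : ℝ))⁻¹)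
      ≤ x ^ 8 * (1 / 30000) := mul_le_mul_of_nonneg_left h7 h6
    _ = x ^ 8 / 30000 := by ring

lemma d5_exp {x : ℝ} (hx : |x| ≤ 1) :
    |Real.exp x - (1 + x + x ^ 2 / 2 + x ^ 3 / 6 + x ^ 4 / 24 + x ^ 5 / 120 + x ^ 6 / 720 +
      x ^ 7 / 5040)| ≤ x ^ 8 / 30000 := by
  have h2 := Real.exp_bound hx (n := 8) (by norm_num)
  have h3 : ∑ m ∈ Finset.range 8, x ^ m / (m.factorial : ℝ) = 1 + x + x ^ 2 / 2 + x ^ 3 / 6 +
      x ^ 4 / 24 + x ^ 5 / 120 + x ^ 6 / 720 + x ^ 7 / 5040 := by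
    simp [Finset.sum_range_succ, Nat.factorial]
  rw [h3] at h2
  refine h2.trans ?_
  have h5 : |x| ^ 8 = x ^ 8 := by
    rw [← abs_pow, abs_of_nonneg (by positivity)]
  rw [h5]
  have h6 : 0 ≤ x ^ 8 := by positivity
  have h7 : ((Nat.succ 8 : ℕ) : ℝ) / (((Nat.factorial 8 : ℕ) : ℝ) * ((8 : ℕ) : ℝ))
      ≤ 1 / 30000 := by
    norm_num [Nat.factorial]
  calc x ^ 8 * (((Nat.succ 8 : ℕ) : ℝ) / (((Nat.factorial 8 : ℕ) : ℝ) * ((8 : ℕ) : ℝ)))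
      ≤ x ^ 8 * (1 / 30000) := mul_le_mul_of_nonneg_left h7 h6
    _ = x ^ 8 / 30000 := by ring

lemma d5_cosh {x : ℝ} (hx : |x| ≤ 1) :
    |Real.cosh x - (1 + x ^ 2 / 2 + x ^ 4 / 24 + x ^ 6 / 720)| ≤ x ^ 8 / 30000 := by
  have h1 := abs_le.1 (d5_exp hx)
  have h2 := abs_le.1 (d5_exp (x := -x) (by rw [abs_neg]; exact hx))
  have h3 : (-x) ^ 8 = x ^ 8 := by ring
  rw [h3] at h2
  rw [Real.cosh_eq, abs_le]
  constructor
  · have := h1.1
    have := h2.1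
    linarith
  · have := h1.2
    have := h2.2
    linarith

/-- the polynomial identity -/
lemma d5_poly (y : ℝ) (hy : |y| ≤ 1) :
    |Pol (y / 2 - y ^ 2 / 24 + y ^ 3 / 720) - y / 2| ≤ y ^ 4 * (2 / 1000) := by
  have h1 : Pol (y / 2 - y ^ 2 / 24 + y ^ 3 / 720) - y / 2 = y ^ 4 * (-1 / 1152 +
      37 / 259200 * y - 11 / 1036800 * y ^ 2 + 7 / 15552000 * y ^ 3 - 1 / 93312000 * y ^ 4 +
      1 / 8398080000 * y ^ 5) := by
    unfold Pol; ring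
  rw [h1, abs_mul, abs_of_nonneg (by positivity : 0 ≤ y ^ 4)]
  refine mul_le_mul_of_nonneg_left ?_ (by positivity)
  have hk : ∀ k : ℕ, |y ^ k| ≤ 1 := fun k => by
    rw [abs_pow]; exact pow_le_one₀ (abs_nonneg _) hy
  have e1 := abs_le.1 (hk 1)
  have e2 := abs_le.1 (hk 2)
  have e3 := abs_le.1 (hk 3)
  have e4 := abs_le.1 (hk 4)
  have e5 := abs_le.1 (hk 5)
  rw [pow_one] at e1
  rw [abs_le]
  constructor <;> linarith [e1.1, e1.2, e2.1, e2.2, e3.1, e3.2, e4.1, e4.2, e5.1, e5.2]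

lemma d5_lip {s t : ℝ} (hs : |s| ≤ 1) (ht : |t| ≤ 1) : |Pol s - Pol t| ≤ |s - t| * 2 := by
  have h1 : Pol s - Pol t = (s - t) * (1 + (s + t) / 6 + 2 * (s ^ 2 + s * t + t ^ 2) / 45) := by
    unfold Pol; ring
  rw [h1, abs_mul]
  refine mul_le_mul_of_nonneg_left ?_ (abs_nonneg _)
  rw [abs_le] at hs ht ⊢
  constructor
  · nlinarith [sq_nonneg (s + t), sq_nonneg s, sq_nonneg t]
  · nlinarith [mul_nonneg (sub_nonneg.2 hs.2) (sub_nonneg.2 ht.2),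
      mul_nonneg (by linarith [hs.1] : 0 ≤ s + 1) (by linarith [ht.1] : 0 ≤ t + 1),
      sq_nonneg s, sq_nonneg t, mul_nonneg (sub_nonneg.2 hs.2) (by linarith [hs.1] : 0 ≤ s + 1),
      mul_nonneg (sub_nonneg.2 ht.2) (by linarith [ht.1] : 0 ≤ t + 1),
      mul_nonneg (sub_nonneg.2 hs.2) (by linarith [ht.1] : 0 ≤ t + 1),
      mul_nonneg (sub_nonneg.2 ht.2) (by linarith [hs.1] : 0 ≤ s + 1)]

lemma d5_small {y : ℝ} (hy : |y| ≤ 1) : |y / 2 - y ^ 2 / 24 + y ^ 3 / 720| ≤ 3 / 4 := by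
  have hk : ∀ k : ℕ, |y ^ k| ≤ 1 := fun k => by
    rw [abs_pow]; exact pow_le_one₀ (abs_nonneg _) hy
  have e1 := abs_le.1 hy
  have e2 := abs_le.1 (hk 2)
  have e3 := abs_le.1 (hk 3)
  rw [abs_le]
  constructor <;> linarith [e1.1, e1.2, e2.1, e2.2, e3.1, e3.2]

lemma d5_main {y c : ℝ} (hy : |y| ≤ 1)
    (hc : |c - (y / 2 - y ^ 2 / 24 + y ^ 3 / 720)| ≤ y ^ 4 / 30000) :
    |Pol c - y / 2| ≤ y ^ 4 / 100 := by
  have h4 : y ^ 4 ≤ 1 := by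
    have : y ^ 4 = |y| ^ 4 := by rw [← abs_pow, abs_of_nonneg (by positivity)]
    rw [this]; exact pow_le_one₀ (abs_nonneg _) hy
  have h1 := d5_poly y hy
  have h2 := d5_small hy
  have h3 : |c| ≤ 1 := by
    have := abs_sub_abs_le_abs_sub c (y / 2 - y ^ 2 / 24 + y ^ 3 / 720)
    linarith
  have h5 := d5_lip h3 (by linarith : |y / 2 - y ^ 2 / 24 + y ^ 3 / 720| ≤ 1)
  have h6 : 0 ≤ y ^ 4 := by positivity
  have h7 := abs_add_le (Pol c - Pol (y / 2 - y ^ 2 / 24 + y ^ 3 / 720))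
    (Pol (y / 2 - y ^ 2 / 24 + y ^ 3 / 720) - y / 2)
  have h8 : Pol c - Pol (y / 2 - y ^ 2 / 24 + y ^ 3 / 720) +
    (Pol (y / 2 - y ^ 2 / 24 + y ^ 3 / 720) - y / 2) = Pol c - y / 2 := by ring
  rw [h8] at h7
  linarith

theorem st_D5 : ST_D5 := by
  refine ⟨fun x hx => ?_, fun x hx => ?_, ?_⟩
  · have hy : |x ^ 2| ≤ 1 := by rw [abs_pow]; exact pow_le_one₀ (abs_nonneg _) hx
    have h1 := d5_cos hx
    have h2 := d5_main (y := x ^ 2) (c := 1 - Real.cos x) hy (by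
      rw [← abs_neg]
      have e : -(1 - Real.cos x - (x ^ 2 / 2 - (x ^ 2) ^ 2 / 24 + (x ^ 2) ^ 3 / 720))
        = Real.cos x - (1 - x ^ 2 / 2 + x ^ 4 / 24 - x ^ 6 / 720) := by ring
      rw [e]
      refine h1.trans (le_of_eq ?_)
      ring)
    refine h2.trans (le_of_eq ?_)
    ring
  · have hy : |-x ^ 2| ≤ 1 := by rw [abs_neg, abs_pow]; exact pow_le_one₀ (abs_nonneg _) hx
    have h1 := d5_cosh hx
    have h2 := d5_main (y := -x ^ 2) (c := 1 - Real.cosh x) hy (by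
      rw [← abs_neg]
      have e : -(1 - Real.cosh x - ((-x ^ 2) / 2 - (-x ^ 2) ^ 2 / 24 + (-x ^ 2) ^ 3 / 720))
        = Real.cosh x - (1 + x ^ 2 / 2 + x ^ 4 / 24 + x ^ 6 / 720) := by ring
      rw [e]
      refine h1.trans (le_of_eq ?_)
      ring)
    have e2 : Pol (1 - Real.cosh x) + x ^ 2 / 2 = Pol (1 - Real.cosh x) - (-x ^ 2) / 2 := by ring
    rw [e2]
    refine h2.trans (le_of_eq ?_)
    ring
  · intro s t hst
    have h1 : Pol t - Pol s = (t - s) * (1 + (s + t) / 6 + 2 * (s ^ 2 + s * t + t ^ 2) / 45) := by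
      unfold Pol; ring
    have h2 : 0 < 1 + (s + t) / 6 + 2 * (s ^ 2 + s * t + t ^ 2) / 45 := by
      nlinarith [sq_nonneg (s + t + 5 / 4 * 2), sq_nonneg (s - t)]
    have h3 := mul_pos (sub_pos.2 hst) h2
    rw [← h1] at h3
    exact sub_pos.1 h3

end Pool.Agent.Helper36.CV
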