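import Pool.Agent.Helper36.CV.StmtsO

set_option autoImplicit false

namespace Pool.Agent.Helper36.CV

open Filter Topology Pointwise ComplexConjugate
open scoped InnerProductSpace ComplexStarModule

noncomputable section

lemma o3b_summ (x : L22) : Summable (fun p : ℤ × ℤ => ‖x p‖ ^ (2 : ℝ)) := by
  have h := lp.memℓp x
  have h2 := (memℓp_gen_iff (p := 2) (by norm_num)).1 h
  simpa using h2

lemma o3b_mem (e : ℤ × ℤ ≃ ℤ × ℤ) (x : L22) (j : ℤ) :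
    Memℓp (fun i : ℤ => x (e (i, j))) 2 := by
  apply memℓp_gen
  have h := o3b_summ x
  have h2 : Function.Injective (fun i : ℤ => e (i, j)) := by
    intro a b hab
    have := e.injective hab
    simpa using congrArg Prod.fst this
  have h3 := h.comp_injective h2
  simpa [Function.comp_def] using h3

def o3bRow (e : ℤ × ℤ ≃ ℤ × ℤ) (x : L22) (j : ℤ) : L2 := ⟨fun i => x (e (i, j)), o3b_mem e x j⟩

lemma o3bRow_apply (e : ℤ × ℤ ≃ ℤ × ℤ) (x : L22) (j i : ℤ) : o3bRow e x j i = x (e (i, j)) := rfl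

lemma o3b_nsq (x : L2) : HasSum (fun i : ℤ => ‖x i‖ ^ 2) (‖x‖ ^ 2) := by
  have h := lp.hasSum_norm (p := 2) (by norm_num) x
  simpa using h

lemma o3b_nsq2 (x : L22) : HasSum (fun i : ℤ × ℤ => ‖x i‖ ^ 2) (‖x‖ ^ 2) := by
  have h := lp.hasSum_norm (p := 2) (by norm_num) x
  simpa using h

lemma o3b_rows (e : ℤ × ℤ ≃ ℤ × ℤ) (x : L22) :
    HasSum (fun j : ℤ => ‖o3bRow e x j‖ ^ 2) (‖x‖ ^ 2) := by
  have h := o3b_nsq2 x
  have h1 : HasSum (fun p : ℤ × ℤ => ‖x (e p)‖ ^ 2) (‖x‖ ^ 2) := (e.hasSum_iff).2 h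
  have h2 : HasSum (fun p : ℤ × ℤ => ‖x (e p.swap)‖ ^ 2) (‖x‖ ^ 2) :=
    ((Equiv.prodComm ℤ ℤ).hasSum_iff).2 h1
  refine h2.prod_fiberwise ?_
  intro j
  have := o3b_nsq (o3bRow e x j)
  exact this

lemma o3b_mem2 (e : ℤ × ℤ ≃ ℤ × ℤ) (S : L2 →L[ℂ] L2) (x : L22) :
    Memℓp (fun p : ℤ × ℤ => S (o3bRow e x (e.symm p).2) (e.symm p).1) 2 := by
  apply memℓp_gen
  have hr : Summable (fun j : ℤ => ‖S (o3bRow e x j)‖ ^ 2) := by
    refine Summable.of_nonneg_of_le (fun j => by positivity) (fun j => ?_)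
      ((o3b_rows e x).summable.mul_left (‖S‖ ^ 2))
    have := S.le_opNorm (o3bRow e x j)
    calc ‖S (o3bRow e x j)‖ ^ 2 ≤ (‖S‖ * ‖o3bRow e x j‖) ^ 2 := by gcongr
      _ = _ := by ring
  have h1 : Summable (fun p : ℤ × ℤ => ‖S (o3bRow e x p.1) p.2‖ ^ 2) := by
    rw [summable_prod_of_nonneg (fun p => by positivity)]
    refine ⟨fun j => (o3b_nsq (S (o3bRow e x j))).summable, ?_⟩
    have h0 : (fun j : ℤ => ∑' i : ℤ, ‖S (o3bRow e x j) i‖ ^ 2)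
        = (fun j : ℤ => ‖S (o3bRow e x j)‖ ^ 2) := by
      funext j
      exact (o3b_nsq (S (o3bRow e x j))).tsum_eq
    show Summable (fun j : ℤ => ∑' i : ℤ, ‖S (o3bRow e x j) i‖ ^ 2)
    rw [h0]
    exact hr
  have h2 : Summable (fun p : ℤ × ℤ => ‖S (o3bRow e x p.2) p.1‖ ^ 2) :=
    ((Equiv.prodComm ℤ ℤ).summable_iff).2 h1
  have h3 := (e.symm.summable_iff).2 h2
  refine h3.congr (fun p => ?_)
  simp

def o3bOp0 (e : ℤ × ℤ ≃ ℤ × ℤ) (S : L2 →L[ℂ] L2) (x : L22) : L22 :=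
  ⟨fun p => S (o3bRow e x (e.symm p).2) (e.symm p).1, o3b_mem2 e S x⟩

lemma o3bOp0_apply (e : ℤ × ℤ ≃ ℤ × ℤ) (S : L2 →L[ℂ] L2) (x : L22) (p : ℤ × ℤ) :
    o3bOp0 e S x p = S (o3bRow e x (e.symm p).2) (e.symm p).1 := rfl

lemma o3bRow_op (e : ℤ × ℤ ≃ ℤ × ℤ) (S : L2 →L[ℂ] L2) (x : L22) (j : ℤ) :
    o3bRow e (o3bOp0 e S x) j = S (o3bRow e x j) := by
  ext i
  rw [o3bRow_apply, o3bOp0_apply]
  simp

lemma o3bRow_add (e : ℤ × ℤ ≃ ℤ × ℤ) (x y : L22) (j : ℤ) :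
    o3bRow e (x + y) j = o3bRow e x j + o3bRow e y j := by
  ext i
  simp [o3bRow_apply]

lemma o3bRow_smul (e : ℤ × ℤ ≃ ℤ × ℤ) (c : ℂ) (x : L22) (j : ℤ) :
    o3bRow e (c • x) j = c • o3bRow e x j := by
  ext i
  simp [o3bRow_apply]

lemma o3b_norm (e : ℤ × ℤ ≃ ℤ × ℤ) (S : L2 →L[ℂ] L2) (x : L22) :
    ‖o3bOp0 e S x‖ ≤ ‖S‖ * ‖x‖ := by
  have h1 := o3b_rows e (o3bOp0 e S x)
  have h2 := (o3b_rows e x).mul_left (‖S‖ ^ 2)
  have h3 : ‖o3bOp0 e S x‖ ^ 2 ≤ ‖S‖ ^ 2 * ‖x‖ ^ 2 := by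
    refine hasSum_le (fun j => ?_) h1 h2
    rw [o3bRow_op]
    have := S.le_opNorm (o3bRow e x j)
    calc ‖S (o3bRow e x j)‖ ^ 2 ≤ (‖S‖ * ‖o3bRow e x j‖) ^ 2 := by gcongr
      _ = _ := by ring
  rw [← mul_pow] at h3
  exact le_of_sq_le_sq h3 (by positivity)

def o3bOp (e : ℤ × ℤ ≃ ℤ × ℤ) (S : L2 →L[ℂ] L2) : L22 →L[ℂ] L22 :=
  LinearMap.mkContinuous
    { toFun := o3bOp0 e S
      map_add' := by
        intro x y
        ext p
        rw [o3bOp0_apply, o3bRow_add, map_add]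
        rfl
      map_smul' := by
        intro c x
        ext p
        rw [o3bOp0_apply, o3bRow_smul, map_smul]
        rfl } ‖S‖ (o3b_norm e S)

lemma o3bOp_apply (e : ℤ × ℤ ≃ ℤ × ℤ) (S : L2 →L[ℂ] L2) (x : L22) (p : ℤ × ℤ) :
    o3bOp e S x p = S (o3bRow e x (e.symm p).2) (e.symm p).1 := rfl

lemma o3bRow_Op (e : ℤ × ℤ ≃ ℤ × ℤ) (S : L2 →L[ℂ] L2) (x : L22) (j : ℤ) :
    o3bRow e (o3bOp e S x) j = S (o3bRow e x j) := o3bRow_op e S x j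

def o3bHom (e : ℤ × ℤ ≃ ℤ × ℤ) : (L2 →L[ℂ] L2) →ₐ[ℂ] (L22 →L[ℂ] L22) :=
  AlgHom.ofLinearMap
    { toFun := o3bOp e
      map_add' := by
        intro S T
        ext x p
        rfl
      map_smul' := by
        intro c S
        ext x p
        rfl }
    (by
      ext x p
      show o3bOp e 1 x p = x p
      rw [o3bOp_apply]
      show o3bRow e x (e.symm p).2 (e.symm p).1 = x p
      rw [o3bRow_apply]
      simp)
    (by
      intro S T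
      ext x p
      show o3bOp e (S * T) x p = o3bOp e S (o3bOp e T x) p
      rw [o3bOp_apply, o3bOp_apply, o3bRow_Op]
      rfl)

lemma o3bHom_apply (e : ℤ × ℤ ≃ ℤ × ℤ) (S : L2 →L[ℂ] L2) : o3bHom e S = o3bOp e S := rfl

lemma o3b_inner (e : ℤ × ℤ ≃ ℤ × ℤ) (x y : L22) :
    HasSum (fun j : ℤ => ⟪o3bRow e x j, o3bRow e y j⟫_ℂ) ⟪x, y⟫_ℂ := by
  have h := lp.hasSum_inner (𝕜 := ℂ) x y
  have h1 : HasSum (fun p : ℤ × ℤ => ⟪x (e p), y (e p)⟫_ℂ) ⟪x, y⟫_ℂ := (e.hasSum_iff).2 h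
  have h2 : HasSum (fun p : ℤ × ℤ => ⟪x (e p.swap), y (e p.swap)⟫_ℂ) ⟪x, y⟫_ℂ :=
    ((Equiv.prodComm ℤ ℤ).hasSum_iff).2 h1
  refine h2.prod_fiberwise ?_
  intro j
  exact lp.hasSum_inner (𝕜 := ℂ) (o3bRow e x j) (o3bRow e y j)

lemma o3b_sa (e : ℤ × ℤ ≃ ℤ × ℤ) (S : L2 →L[ℂ] L2) (hS : IsSelfAdjoint S) :
    IsSelfAdjoint (o3bHom e S) := by
  rw [ContinuousLinearMap.isSelfAdjoint_iff_isSymmetric]
  rw [ContinuousLinearMap.isSelfAdjoint_iff_isSymmetric] at hS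
  intro x y
  have h1 := o3b_inner e (o3bOp e S x) y
  have h2 := o3b_inner e x (o3bOp e S y)
  have h3 : (fun j : ℤ => ⟪o3bRow e (o3bOp e S x) j, o3bRow e y j⟫_ℂ)
      = (fun j : ℤ => ⟪o3bRow e x j, o3bRow e (o3bOp e S y) j⟫_ℂ) := by
    funext j
    rw [o3bRow_Op, o3bRow_Op]
    exact hS _ _
  rw [h3] at h1
  exact h1.unique h2

lemma o3b_ind (l t : ℝ) : (Set.Ico (1 - (Real.sqrt 5 - 1) / 2) 1).indicator (fun _ => l) t
    = l * (Set.Ico (1 - (Real.sqrt 5 - 1) / 2) 1).indicator (fun _ => (1 : ℝ)) t := by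
  by_cases h : t ∈ Set.Ico (1 - (Real.sqrt 5 - 1) / 2) 1
  · rw [Set.indicator_of_mem h, Set.indicator_of_mem h, mul_one]
  · rw [Set.indicator_of_notMem h, Set.indicator_of_notMem h, mul_zero]

lemma o3b_A (l : ℝ) (h : L2 →L[ℂ] L2) (hh : IsH l h) (x : L22) (p : ℤ × ℤ) :
    o3bHom (Equiv.refl _) h x p = x (p.1 + 1, p.2) + x (p.1 - 1, p.2)
      + ((l * vv p.1 : ℝ) : ℂ) * x p := by
  rw [o3bHom_apply, o3bOp_apply, hh]
  rfl

lemma o3b_B (l : ℝ) (h : L2 →L[ℂ] L2) (hh : IsH l h) (x : L22) (p : ℤ × ℤ) :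
    o3bHom (Equiv.prodComm ℤ ℤ) h x p = x (p.1, p.2 + 1) + x (p.1, p.2 - 1)
      + ((l * vv p.2 : ℝ) : ℂ) * x p := by
  rw [o3bHom_apply, o3bOp_apply, hh]
  rfl

theorem st_O3b : ST_O3b := by
  intro l1 l2 T h1 h2 hT hT2 hs1 hh1 hs2 hh2 x hx
  set A := o3bHom (Equiv.refl _) h1 with hA
  set B := o3bHom (Equiv.prodComm ℤ ℤ) h2 with hB
  have hAf : ∀ (x : L22) (p : ℤ × ℤ), A x p = x (p.1 + 1, p.2) + x (p.1 - 1, p.2)
      + ((l1 * vv p.1 : ℝ) : ℂ) * x p := fun x p => o3b_A l1 h1 hh1 x p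
  have hBf : ∀ (x : L22) (p : ℤ × ℤ), B x p = x (p.1, p.2 + 1) + x (p.1, p.2 - 1)
      + ((l2 * vv p.2 : ℝ) : ℂ) * x p := fun x p => o3b_B l2 h2 hh2 x p
  have hAs : IsSelfAdjoint A := o3b_sa _ h1 hs1
  have hBs : IsSelfAdjoint B := o3b_sa _ h2 hs2
  have hcomm : A * B = B * A := by
    ext y p
    show A (B y) p = B (A y) p
    rw [hAf, hBf, hBf, hBf, hBf, hAf, hAf, hAf]
    dsimp only
    ring
  have hsum : T = A + B := by
    ext y p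
    show T y p = A y p + B y p
    rw [hT2 y p, hAf, hBf, o3b_ind l1, o3b_ind l2]
    show _ = y (p.1 + 1, p.2) + y (p.1 - 1, p.2) + ((l1 * vv p.1 : ℝ) : ℂ) * y p
      + (y (p.1, p.2 + 1) + y (p.1, p.2 - 1) + ((l2 * vv p.2 : ℝ) : ℂ) * y p)
    unfold vv
    push_cast
    ring
  set N : L22 →L[ℂ] L22 := A + Complex.I • B with hN
  have hstar : star N = A - Complex.I • B := by
    rw [hN, star_add, star_smul, hAs.star_eq, hBs.star_eq]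
    have : star Complex.I = -Complex.I := Complex.conj_I
    rw [this, neg_smul, sub_eq_add_neg]
  have hnor : IsStarNormal N := by
    refine ⟨?_⟩
    show star N * N = N * star N
    rw [hstar, hN]
    simp only [mul_add, add_mul, mul_sub, sub_mul, smul_mul_assoc, mul_smul_comm, hcomm,
      smul_add, smul_sub]
    abel
  have hre : ((realPart N : selfAdjoint (L22 →L[ℂ] L22)) : L22 →L[ℂ] L22) = A := by
    rw [realPart_apply_coe, hstar, hN]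
    have : A + Complex.I • B + (A - Complex.I • B) = (2 : ℝ) • A := by
      rw [two_smul]
      abel
    rw [this]
    exact inv_smul_smul₀ two_ne_zero A
  have him : ((imaginaryPart N : selfAdjoint (L22 →L[ℂ] L22)) : L22 →L[ℂ] L22) = B := by
    rw [imaginaryPart_apply_coe, hstar, hN]
    have : A + Complex.I • B - (A - Complex.I • B) = (2 : ℝ) • (Complex.I • B) := by
      rw [two_smul]
      abel
    rw [this]
    have h3 : (2 : ℝ)⁻¹ • ((2 : ℝ) • (Complex.I • B)) = Complex.I • B :=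
      inv_smul_smul₀ two_ne_zero _
    have h4 : -Complex.I • ((2 : ℝ)⁻¹ • ((2 : ℝ) • (Complex.I • B))) = B := by
      rw [h3, smul_smul]
      simp
    exact h4
  have hcA : cfc (fun z : ℂ => (z.re : ℂ)) N = A := by
    rw [cfc_re_id N, hre]
  have hcB : cfc (fun z : ℂ => (z.im : ℂ)) N = B := by
    rw [cfc_im_id N, him]
  have hcT : cfc (fun z : ℂ => (z.re : ℂ) + (z.im : ℂ)) N = T := by
    rw [cfc_add (a := N) (fun z : ℂ => (z.re : ℂ)) (fun z : ℂ => (z.im : ℂ)) (by fun_prop)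
      (by fun_prop), hcA, hcB, hsum]
  have hx2 : (x : ℂ) ∈ spectrum ℂ T := hx
  rw [← hcT, cfc_map_spectrum (R := ℂ) (fun z : ℂ => (z.re : ℂ) + (z.im : ℂ)) N hnor
    (by fun_prop)] at hx2
  obtain ⟨z, hz, hzx⟩ := hx2
  have h1m : (z.re : ℂ) ∈ spectrum ℂ h1 := by
    apply AlgHom.spectrum_apply_subset (o3bHom (Equiv.refl _)) h1
    show (z.re : ℂ) ∈ spectrum ℂ A
    rw [← hcA, cfc_map_spectrum (R := ℂ) (fun z : ℂ => (z.re : ℂ)) N hnor (by fun_prop)]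
    exact ⟨z, hz, rfl⟩
  have h2m : (z.im : ℂ) ∈ spectrum ℂ h2 := by
    apply AlgHom.spectrum_apply_subset (o3bHom (Equiv.prodComm ℤ ℤ)) h2
    show (z.im : ℂ) ∈ spectrum ℂ B
    rw [← hcB, cfc_map_spectrum (R := ℂ) (fun z : ℂ => (z.im : ℂ)) N hnor (by fun_prop)]
    exact ⟨z, hz, rfl⟩
  refine ⟨z.re, h1m, z.im, h2m, ?_⟩
  show z.re + z.im = x
  have : ((z.re : ℂ) + (z.im : ℂ)) = (x : ℂ) := hzx
  exact_mod_cast this

end

end Pool.Agent.Helper36.CV
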